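import Pool.Agent.H91.TJ.Stm

set_option autoImplicit false

/-!
# Crew TJ, part COR
-/

namespace H85.TJ

open Finset
open Pool.Agent.Y516.OJ (Fam Wt EE ind Disj nInt nErr Prot tot)
open Pool.Agent.Y85.OJ (ind_nonneg ind_true ind_false sum_Wt Wt_nonneg EE_mono EE_sum)
open Pool.Agent.H91.TJ (JProt mu xx)

theorem mu_nonneg {α : ℝ} (h0 : 0 ≤ α) (h1 : α ≤ 1) {u k : ℕ} (F : Fam u k → Prop) :
    0 ≤ mu α F :=
  Finset.sum_nonneg fun X _ => mul_nonneg (Wt_nonneg h0 h1 X) (ind_nonneg _)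

theorem ind_le_one (P : Prop) : ind P ≤ 1 := by
  by_cases h : P
  · rw [ind_true h]
  · rw [ind_false h]
    exact zero_le_one

theorem mu_le_one {α : ℝ} (h0 : 0 ≤ α) (h1 : α ≤ 1) {u k : ℕ} (F : Fam u k → Prop) :
    mu α F ≤ 1 := by
  rw [← sum_Wt α u k]
  exact Finset.sum_le_sum fun X _ => mul_le_of_le_one_right (Wt_nonneg h0 h1 X) (ind_le_one _)

theorem t_COR (hCHO : Pool.Agent.H91.TJ.S_CHO) (hPUR : Pool.Agent.H91.TJ.S_PUR)
    (hUB : Pool.Agent.H91.TJ.S_UB3) (hN1 : Pool.Agent.H91.TJ.S_NU1)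
    (hN2 : Pool.Agent.H91.TJ.S_NU2) : Pool.Agent.H91.TJ.S_COR := by
  classical
  intro w b l m q M k s n u J qu hw hb hm hq hM hu hkM hkl hd hans
  by_contra hk
  have hk' : 2 * m * s < k ^ 2 := by omega
  have hm1 : 10 ^ 6 ≤ m := by omega
  have hm0 : 1 ≤ m := by omega
  have hmq : m ≤ q := by
    have h1 : m * 1 ≤ m * (l + b) := Nat.mul_le_mul_left _ (by omega)
    omega
  have hq5 : 5 ≤ q := by omega
  have hq0 : 1 ≤ q := by omega
  have hqM : 400 * 10 ^ 6 * q ^ 3 ≤ M := by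
    rw [hM]
    exact Nat.mul_le_mul_right _ (Nat.mul_le_mul_left _ hm1)
  have hqM2 : 35328 * q ^ 2 ≤ M := by
    refine le_trans ?_ hqM
    exact Nat.mul_le_mul (by norm_num) (Nat.pow_le_pow_right hq0 (by norm_num))
  have hMm : 10 * m ≤ M := by
    rw [hM]
    have h1 : 1 ≤ q ^ 3 := Nat.pow_pos hq0
    calc 10 * m = 10 * m * 1 := by ring
      _ ≤ 400 * m * q ^ 3 := Nat.mul_le_mul (Nat.mul_le_mul_right _ (by norm_num)) h1
  have hM6 : 10 ^ 6 ≤ M := by omega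
  have hM2 : 2 ≤ M := by omega
  have hu' : 768 * u ≤ M ^ 2 := by
    rw [hu]
    exact Nat.mul_div_le _ _
  have hMR : (0 : ℝ) < M := by exact_mod_cast (by omega : 0 < M)
  have ha0 : (0 : ℝ) < 1 / (M : ℝ) := by positivity
  have ha1 : 1 / (M : ℝ) ≤ 1 := by
    rw [div_le_one hMR]
    exact_mod_cast (by omega : 1 ≤ M)
  obtain ⟨D, a, qq, F, G, hD, hF, hG, hrun, hdep, hprob⟩ :=
    hCHO u k m b l s w n M qu hm0 hM2 hu' hkM hkl hk' hd
  rw [← hq] at hprob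
  obtain ⟨F1, G1, hF1, hG1, hy, hhalf⟩ := hPUR u k m q M D F G hD hm0 hq5 hqM2 hu' hprob
  obtain ⟨y, hydef⟩ : ∃ y, y = mu (1 / (M : ℝ)) F1 * mu (1 / (M : ℝ)) G1 := ⟨_, rfl⟩
  rw [← hydef] at hy hhalf
  have hypos : 0 < y := lt_of_lt_of_le (by positivity) hy
  have hy1 : y ≤ 1 := by
    rw [hydef]
    exact mul_le_one₀ (mu_le_one ha0.le ha1 _) (mu_nonneg ha0.le ha1 _) (mu_le_one ha0.le ha1 _)
  have hub : ∀ v : Fin (2 ^ w), EE (1 / (M : ℝ)) (fun X Y => ind (F1 X) * ind (G1 Y) *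
      ind (nErr D (fun d => qq d v) X Y = 0 ∧ 2 * nInt D X Y ≤ m)) ≤
      ((1 + (1 - 1 / 50000 : ℝ)) / 2) ^ ((m : ℝ) / 2) *
        (2 : ℝ) ^ ((b : ℝ) * m * (2 * m * (1 / (M : ℝ)))) *
        y ^ (1 / (1 + 2 * (m : ℝ) * (1 / (M : ℝ)))) := by
    intro v
    rw [hydef]
    refine hUB u k m b (1 / (M : ℝ)) (1 - 1 / 50000) D (fun d => qq d v) F1 G1 ha0 ?_ hm0 hD
      (fun d => hdep d v) (by norm_num) (by norm_num) ?_ (by rw [← hydef]; exact hypos)
    · rw [mul_one_div, div_le_one hMR]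
      exact_mod_cast hMm
    · intro n' hn'
      rw [hu]
      exact hN1 M n' hM6 (by omega)
  have hsum : EE (1 / (M : ℝ)) (fun X Y => ind (F1 X) * ind (G1 Y) * ind (2 * nInt D X Y ≤ m)) ≤
      EE (1 / (M : ℝ)) (fun X Y => ∑ v : Fin (2 ^ w), 1 * (ind (F1 X) * ind (G1 Y) *
        ind (nErr D (fun d => qq d v) X Y = 0 ∧ 2 * nInt D X Y ≤ m))) := by
    refine EE_mono ha0.le ha1 fun X Y => ?_
    have hnn : ∀ v : Fin (2 ^ w), 0 ≤ 1 * (ind (F1 X) * ind (G1 Y) *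
        ind (nErr D (fun d => qq d v) X Y = 0 ∧ 2 * nInt D X Y ≤ m)) := fun v =>
      mul_nonneg zero_le_one (mul_nonneg (mul_nonneg (ind_nonneg _) (ind_nonneg _)) (ind_nonneg _))
    by_cases h1 : F1 X
    · by_cases h2 : G1 Y
      · by_cases h3 : 2 * nInt D X Y ≤ m
        · refine le_trans (le_of_eq ?_) (Finset.single_le_sum (fun v _ => hnn v)
            (Finset.mem_univ (J X Y a)))
          rw [one_mul]
          congr 1
          rw [ind_true h3, ind_true]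
          refine ⟨?_, h3⟩
          unfold nErr
          rw [Finset.card_eq_zero, Finset.filter_eq_empty_iff]
          intro d hdD
          rw [not_not]
          have h4 := hans X Y (hF X (hF1 X h1)) (hG Y (hG1 Y h2)) d
          rw [hrun X Y (hF1 X h1) (hG1 Y h2) d hdD] at h4
          exact h4
        · rw [ind_false h3, mul_zero]
          exact Finset.sum_nonneg fun v _ => hnn v
      · rw [ind_false h2, mul_zero, zero_mul]
        exact Finset.sum_nonneg fun v _ => by simp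
    · rw [ind_false h1, zero_mul, zero_mul]
      exact Finset.sum_nonneg fun v _ => by simp
  rw [EE_sum] at hsum
  have hsum2 : ∑ v : Fin (2 ^ w), 1 * EE (1 / (M : ℝ)) (fun X Y => ind (F1 X) * ind (G1 Y) *
        ind (nErr D (fun d => qq d v) X Y = 0 ∧ 2 * nInt D X Y ≤ m)) ≤
      (2 : ℝ) ^ w * (((1 + (1 - 1 / 50000 : ℝ)) / 2) ^ ((m : ℝ) / 2) *
        (2 : ℝ) ^ ((b : ℝ) * m * (2 * m * (1 / (M : ℝ)))) *
        y ^ (1 / (1 + 2 * (m : ℝ) * (1 / (M : ℝ))))) := by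
    have h1 := Finset.sum_le_card_nsmul (univ : Finset (Fin (2 ^ w))) (fun v =>
      1 * EE (1 / (M : ℝ)) (fun X Y => ind (F1 X) * ind (G1 Y) *
        ind (nErr D (fun d => qq d v) X Y = 0 ∧ 2 * nInt D X Y ≤ m))) _
      (fun v _ => (by rw [one_mul]; exact hub v))
    refine h1.trans (le_of_eq ?_)
    rw [Finset.card_univ, Fintype.card_fin, nsmul_eq_mul]
    push_cast
    rfl
  have hfin := hN2 w b l m q M y hw hb hm hq hM hy hy1
  linarith

end H85.TJ
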