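import Pool.Agent.H91.TJ.Stm

set_option autoImplicit false

/-!
# Crew TJ, part NU1
-/

namespace H85.TJ

theorem t_NU1 : Pool.Agent.H91.TJ.S_NU1 := by
  intro M n hM hn
  have hM' : (10 ^ 6 : ℝ) ≤ (M : ℝ) := by exact_mod_cast hM
  have hMpos : (0 : ℝ) < M := by linarith [show (0 : ℝ) < 10 ^ 6 by norm_num]
  have hn' : (n : ℝ) ≤ M := by exact_mod_cast hn
  have hn0 : (0 : ℝ) ≤ n := Nat.cast_nonneg n
  have hx0 : 0 ≤ (1 / (M : ℝ)) ^ 2 * n / 40 := by positivity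
  have hx1 : (1 / (M : ℝ)) ^ 2 * n / 40 ≤ 1 := by
    have h1 : (1 / (M : ℝ)) ^ 2 * n ≤ (1 / (M : ℝ)) ^ 2 * M :=
      mul_le_mul_of_nonneg_left hn' (by positivity)
    have h2 : (1 / (M : ℝ)) ^ 2 * M = 1 / M := by field_simp
    have h3 : 1 / (M : ℝ) ≤ 1 := by
      rw [div_le_one hMpos]
      linarith [show (1 : ℝ) ≤ 10 ^ 6 by norm_num]
    linarith
  have hu : (M : ℝ) ^ 2 / 1000 ≤ ((M ^ 2 / 768 : ℕ) : ℝ) := by
    have h1 : M ^ 2 < 768 * (M ^ 2 / 768) + 768 := by omega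
    have h2 : ((M ^ 2 : ℕ) : ℝ) < ((768 * (M ^ 2 / 768) + 768 : ℕ) : ℝ) := by exact_mod_cast h1
    push_cast at h2
    have h3 : (10 ^ 6 : ℝ) * 10 ^ 6 ≤ (M : ℝ) ^ 2 := by
      rw [sq]
      exact mul_le_mul hM' hM' (by norm_num) hMpos.le
    nlinarith
  have h1 : (1 - (1 / (M : ℝ)) ^ 2 * n / 40) ^ (M ^ 2 / 768) ≤
      Real.exp (-((1 / (M : ℝ)) ^ 2 * n / 40)) ^ (M ^ 2 / 768) := by
    refine pow_le_pow_left₀ (by linarith) ?_ _
    have := Real.add_one_le_exp (-((1 / (M : ℝ)) ^ 2 * n / 40))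
    linarith
  have h2 : Real.exp (-((1 / (M : ℝ)) ^ 2 * n / 40)) ^ (M ^ 2 / 768) ≤
      Real.exp (-(1 / 40000)) ^ n := by
    rw [← Real.exp_nat_mul, ← Real.exp_nat_mul, Real.exp_le_exp]
    have h3 : (M : ℝ) ^ 2 / 1000 * ((1 / (M : ℝ)) ^ 2 * n / 40) = n * (1 / 40000) := by
      field_simp
      ring
    have h4 := mul_le_mul_of_nonneg_right hu hx0
    rw [h3] at h4
    linarith
  have h5 : Real.exp (-(1 / 40000)) ^ n ≤ (1 - 1 / 50000 : ℝ) ^ n := by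
    refine pow_le_pow_left₀ (Real.exp_pos _).le ?_ _
    rw [Real.exp_neg]
    have h6 := Real.add_one_le_exp (1 / 40000 : ℝ)
    rw [inv_le_comm₀ (Real.exp_pos _) (by norm_num)]
    refine le_trans ?_ h6
    norm_num
  exact (h1.trans h2).trans h5

end H85.TJ
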