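import Pool.Agent.H91.TJ.Stm

set_option autoImplicit false

/-!
# Crew TJ, part NU2
-/

namespace H85.TJ

theorem pow4_le (q : ℕ) (hq : 64 ≤ q) : 400 * q ^ 4 ≤ 2 ^ q := by
  induction q, hq using Nat.le_induction with
  | base => norm_num
  | succ q hq ih =>
    have h1 : (q + 1) ^ 4 ≤ 2 * q ^ 4 := by
      have h2 : (64 * (q + 1)) ≤ 65 * q := by omega
      have h3 : (64 * (q + 1)) ^ 4 ≤ (65 * q) ^ 4 := Nat.pow_le_pow_left h2 4
      rw [mul_pow, mul_pow] at h3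
      have h4 : 65 ^ 4 * q ^ 4 ≤ 64 ^ 4 * (2 * q ^ 4) := by
        have : 65 ^ 4 ≤ 64 ^ 4 * 2 := by norm_num
        calc 65 ^ 4 * q ^ 4 ≤ (64 ^ 4 * 2) * q ^ 4 := Nat.mul_le_mul_right _ this
          _ = _ := by ring
      exact Nat.le_of_mul_le_mul_left (h3.trans h4) (by norm_num)
    calc 400 * (q + 1) ^ 4 ≤ 400 * (2 * q ^ 4) := Nat.mul_le_mul_left _ h1
      _ = 2 * (400 * q ^ 4) := by ring
      _ ≤ 2 * 2 ^ q := Nat.mul_le_mul_left _ ih
      _ = 2 ^ (q + 1) := by ring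

theorem exp5 : 2 / Real.exp 5 < 1 / 8 / 1 := by
  have h1 : (2.7182818283 : ℝ) < Real.exp 1 := Real.exp_one_gt_d9
  have h2 : Real.exp 5 = Real.exp 1 ^ 5 := by
    rw [← Real.exp_nat_mul]
    norm_num
  have h3 : (2.7 : ℝ) ^ 5 ≤ Real.exp 1 ^ 5 := pow_le_pow_left₀ (by norm_num) (by linarith) 5
  rw [h2, div_lt_iff₀ (by positivity)]
  norm_num at h3 ⊢
  linarith

theorem t_NU2 : Pool.Agent.H91.TJ.S_NU2 := by
  intro w b l m q M y hw hb hm hq hM hy hy1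
  have hm1 : 10 ^ 6 ≤ m := by omega
  have hmb : m * b ≤ q := by
    rw [hq]
    have : m * b ≤ m * (l + b) := Nat.mul_le_mul_left _ (by omega)
    omega
  have hmq : m ≤ q := by
    have : m * 1 ≤ m * b := Nat.mul_le_mul_left _ hb
    omega
  have hq64 : 64 ≤ q := by omega
  have hM2 : M ≤ 2 ^ q := by
    have h1 : M ≤ 400 * q ^ 4 := by
      rw [hM]
      calc 400 * m * q ^ 3 ≤ 400 * q * q ^ 3 := Nat.mul_le_mul_right _ (Nat.mul_le_mul_left _ hmq)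
        _ = _ := by ring
    exact h1.trans (pow4_le q hq64)
  have hq0 : (0 : ℝ) < q := by exact_mod_cast (by omega : 0 < q)
  have hq1 : (1 : ℝ) ≤ q := by exact_mod_cast (by omega : 1 ≤ q)
  have hm0 : (0 : ℝ) < m := by exact_mod_cast (by omega : 0 < m)
  have hb0 : (0 : ℝ) < b := by exact_mod_cast (by omega : 0 < b)
  have hMR : (M : ℝ) = 400 * m * q ^ 3 := by
    rw [hM]
    push_cast
    ring
  have hM0 : (0 : ℝ) < M := by
    rw [hMR]
    positivity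
  have hM2' : (M : ℝ) ≤ 2 ^ q := by exact_mod_cast hM2
  -- the lower bound of y
  have hypos : 0 < y := lt_of_lt_of_le (by positivity) hy
  have hinv : 1 / y ≤ (2 : ℝ) ^ (178 * q ^ 3) := by
    have h1 : 1 / y ≤ 1 / ((1 / (M : ℝ)) ^ (132 * q ^ 2) * (1 / 2) ^ (46 * q ^ 2)) :=
      one_div_le_one_div_of_le (by positivity) hy
    have h2 : 1 / ((1 / (M : ℝ)) ^ (132 * q ^ 2) * (1 / 2) ^ (46 * q ^ 2)) =
        (M : ℝ) ^ (132 * q ^ 2) * 2 ^ (46 * q ^ 2) := by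
      rw [one_div_pow, one_div_pow]
      field_simp
    have h3 : (M : ℝ) ^ (132 * q ^ 2) ≤ ((2 : ℝ) ^ q) ^ (132 * q ^ 2) :=
      pow_le_pow_left₀ hM0.le hM2' _
    have h4 : ((2 : ℝ) ^ q) ^ (132 * q ^ 2) = 2 ^ (132 * q ^ 3) := by
      rw [← pow_mul]
      congr 1
      ring
    have h5 : (2 : ℝ) ^ (46 * q ^ 2) ≤ 2 ^ (46 * q ^ 3) := by
      refine pow_le_pow_right₀ (by norm_num) ?_
      have : q ^ 2 ≤ q ^ 3 := Nat.pow_le_pow_right (by omega) (by norm_num)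
      omega
    calc 1 / y ≤ (M : ℝ) ^ (132 * q ^ 2) * 2 ^ (46 * q ^ 2) := h1.trans h2.le
      _ ≤ 2 ^ (132 * q ^ 3) * 2 ^ (46 * q ^ 3) :=
        mul_le_mul (h3.trans h4.le) h5 (by positivity) (by positivity)
      _ = 2 ^ (178 * q ^ 3) := by
        rw [← pow_add]
        congr 1
        ring
  -- δ
  obtain ⟨δ, hδ⟩ : ∃ δ : ℝ, δ = 2 * (m : ℝ) * (1 / (M : ℝ)) := ⟨_, rfl⟩
  have hδ2 : δ = 1 / (200 * (q : ℝ) ^ 3) := by
    rw [hδ, hMR]
    field_simp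
    norm_num
  have hδ0 : 0 < δ := by
    rw [hδ2]
    positivity
  rw [← hδ]
  -- the power of y
  have hy2 : y ^ (1 / (1 + δ)) ≤ y * 2 := by
    have h1 : y ^ (1 / (1 + δ)) = y * (1 / y) ^ (δ / (1 + δ)) := by
      rw [one_div y, Real.inv_rpow hypos.le, ← Real.rpow_neg hypos.le]
      nth_rw 2 [← Real.rpow_one y]
      rw [← Real.rpow_add hypos]
      congr 1
      field_simp
      ring
    have hy3 : 1 ≤ 1 / y := by
      rw [le_div_iff₀ hypos]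
      linarith
    have h2 : (1 / y) ^ (δ / (1 + δ)) ≤ (1 / y) ^ δ := by
      refine Real.rpow_le_rpow_of_exponent_le hy3 ?_
      exact div_le_self hδ0.le (by linarith)
    have h3 : (1 / y) ^ δ ≤ ((2 : ℝ) ^ (178 * q ^ 3)) ^ δ :=
      Real.rpow_le_rpow (by positivity) hinv hδ0.le
    have h4 : ((2 : ℝ) ^ (178 * q ^ 3)) ^ δ ≤ 2 := by
      rw [← Real.rpow_natCast, ← Real.rpow_mul (by norm_num)]
      have h5 : ((178 * q ^ 3 : ℕ) : ℝ) * δ ≤ 1 := by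
        rw [hδ2]
        push_cast
        rw [mul_one_div, div_le_one (by positivity)]
        have : (0 : ℝ) < (q : ℝ) ^ 3 := by positivity
        linarith
      calc (2 : ℝ) ^ (((178 * q ^ 3 : ℕ) : ℝ) * δ) ≤ 2 ^ (1 : ℝ) :=
            Real.rpow_le_rpow_of_exponent_le (by norm_num) h5
        _ = 2 := by norm_num
    rw [h1]
    exact mul_le_mul_of_nonneg_left ((h2.trans h3).trans h4) hypos.le
  have hb2 : (2 : ℝ) ^ ((b : ℝ) * m * δ) ≤ 2 := by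
    have h5 : (b : ℝ) * m * δ ≤ 1 := by
      rw [hδ2]
      rw [mul_one_div, div_le_one (by positivity)]
      have h6 : (m : ℝ) * b ≤ q := by exact_mod_cast hmb
      have h7 : (q : ℝ) ≤ q ^ 3 := by
        calc (q : ℝ) = q ^ 1 := by ring
          _ ≤ q ^ 3 := pow_le_pow_right₀ hq1 (by norm_num)
      nlinarith
    calc (2 : ℝ) ^ ((b : ℝ) * m * δ) ≤ 2 ^ (1 : ℝ) :=
          Real.rpow_le_rpow_of_exponent_le (by norm_num) h5
      _ = 2 := by norm_num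
  have hr : ((1 + (1 - 1 / 50000 : ℝ)) / 2) ^ ((m : ℝ) / 2) ≤ Real.exp (-5) ^ w := by
    have h1 : ((1 + (1 - 1 / 50000 : ℝ)) / 2) ≤ Real.exp (-(1 / 100000)) := by
      have := Real.add_one_le_exp (-(1 / 100000) : ℝ)
      linarith
    have h2 : ((1 + (1 - 1 / 50000 : ℝ)) / 2) ^ ((m : ℝ) / 2) ≤
        Real.exp (-(1 / 100000)) ^ ((m : ℝ) / 2) :=
      Real.rpow_le_rpow (by norm_num) h1 (by positivity)
    refine h2.trans (le_of_eq ?_)
    rw [← Real.exp_mul, ← Real.exp_nat_mul]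
    congr 1
    rw [hm]
    push_cast
    ring
  have hA : (0 : ℝ) ≤ ((1 + (1 - 1 / 50000 : ℝ)) / 2) ^ ((m : ℝ) / 2) :=
    Real.rpow_nonneg (by norm_num) _
  have hB : (0 : ℝ) ≤ (2 : ℝ) ^ ((b : ℝ) * m * δ) := Real.rpow_nonneg (by norm_num) _
  have hC : (0 : ℝ) ≤ y ^ (1 / (1 + δ)) := Real.rpow_nonneg hypos.le _
  have hD : ((1 + (1 - 1 / 50000 : ℝ)) / 2) ^ ((m : ℝ) / 2) * (2 : ℝ) ^ ((b : ℝ) * m * δ) *
      y ^ (1 / (1 + δ)) ≤ Real.exp (-5) ^ w * 2 * (y * 2) :=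
    mul_le_mul (mul_le_mul hr hb2 hB (by positivity)) hy2 hC (by positivity)
  have hE : (2 : ℝ) ^ w * (Real.exp (-5) ^ w * 2 * (y * 2)) = (2 / Real.exp 5) ^ w * (4 * y) := by
    rw [Real.exp_neg, div_pow, inv_pow]
    field_simp
    ring
  have hF : (2 / Real.exp 5) ^ w ≤ 2 / Real.exp 5 := by
    refine pow_le_of_le_one (by positivity) ?_ (by omega)
    have := exp5
    linarith
  calc (2 : ℝ) ^ w * (((1 + (1 - 1 / 50000 : ℝ)) / 2) ^ ((m : ℝ) / 2) *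
        (2 : ℝ) ^ ((b : ℝ) * m * δ) * y ^ (1 / (1 + δ)))
      ≤ (2 : ℝ) ^ w * (Real.exp (-5) ^ w * 2 * (y * 2)) :=
        mul_le_mul_of_nonneg_left hD (by positivity)
    _ = (2 / Real.exp 5) ^ w * (4 * y) := hE
    _ ≤ 2 / Real.exp 5 * (4 * y) := mul_le_mul_of_nonneg_right hF (by positivity)
    _ < 1 / 8 / 1 * (4 * y) := mul_lt_mul_of_pos_right exp5 (by positivity)
    _ = 1 / 2 * y := by ring

end H85.TJ
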