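import Pool.Agent.H91.TJ.Bas
import Pool.Agent.H39.TJ.MOM

set_option autoImplicit false

/-!
# Crew TJ, part PUR (purification)
-/

namespace H85.TJ

open Finset
open Pool.Agent.Y516.OJ (Fam wt Wt EE ind Disj nInt nErr Prot tot)
open Pool.Agent.Y85.OJ (ind_nonneg ind_true ind_false sum_Wt Wt_nonneg EE_mono EE_sum)
open Pool.Agent.H91.TJ (mu xx Agr trues mu_nonneg mu_mono mu_le_one xx_le)

theorem mu_Agr {u k : ℕ} (α : ℝ) (E : Finset (Fin u × Fin k)) (X0 : Fam u k) :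
    mu α (Agr E X0) = ∏ c ∈ E, (if X0 c.1 c.2 = true then α else 1 - α) := by
  have e2 : mu α (Agr E X0) =
      ∏ c : Fin u × Fin k,
        ((α * (if c ∈ E → true = X0 c.1 c.2 then (1 : ℝ) else 0)) +
          ((1 - α) * (if c ∈ E → false = X0 c.1 c.2 then (1 : ℝ) else 0))) := by
    have h := Pool.Agent.H39.TJ.sum_prod (u := u) (k := k)
      (fun c b => (if b = true then α else 1 - α) *
        (if c ∈ E → b = X0 c.1 c.2 then (1 : ℝ) else 0))
    simp only [if_true, Bool.false_eq_true, if_false] at h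
    rw [← h]
    unfold mu
    apply Finset.sum_congr rfl
    intro X _
    rw [Pool.Agent.H39.TJ.Wt_prod, Pool.Agent.H39.TJ.ind_Agr, ← Finset.prod_mul_distrib]
  rw [e2]
  have h3 : ∏ c ∈ E, (if X0 c.1 c.2 = true then α else 1 - α) =
      ∏ c : Fin u × Fin k, (if c ∈ E then (if X0 c.1 c.2 = true then α else 1 - α) else 1) := by
    rw [Finset.prod_ite_mem, Finset.univ_inter]
  rw [h3]
  refine Finset.prod_congr rfl fun c _ => ?_
  by_cases hE : c ∈ E
  · cases hx : X0 c.1 c.2 <;> simp [hE]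
  · simp [hE]

theorem quarter_le (M : ℕ) (hM : 6 ≤ M) : (1 / 4 : ℝ) ≤ (1 - 1 / (M : ℝ)) ^ M := by
  have hM' : (6 : ℝ) ≤ M := by exact_mod_cast hM
  have h1 : Real.exp (-(1 / ((M : ℝ) - 1))) ≤ 1 - 1 / (M : ℝ) := by
    rw [Real.exp_neg]
    have h2 := Real.add_one_le_exp (1 / ((M : ℝ) - 1))
    have h3 : 1 - 1 / (M : ℝ) = (1 / ((M : ℝ) - 1) + 1)⁻¹ := by
      have h4 : (M : ℝ) - 1 ≠ 0 := by linarith
      have h5 : (M : ℝ) ≠ 0 := by linarith
      have h6 : 1 / ((M : ℝ) - 1) + 1 = M / (M - 1) := by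
        field_simp
        ring
      rw [h6, inv_div]
      field_simp
    rw [h3]
    refine inv_anti₀ ?_ h2
    have : 0 < (M : ℝ) - 1 := by linarith
    positivity
  have h2 : Real.exp (-(6 / 5)) ≤ Real.exp (-(1 / ((M : ℝ) - 1))) ^ M := by
    rw [← Real.exp_nat_mul, Real.exp_le_exp]
    have h3 : (M : ℝ) * (1 / ((M : ℝ) - 1)) ≤ 6 / 5 := by
      rw [mul_one_div, div_le_iff₀ (by linarith)]
      linarith
    linarith
  have h3 : (1 / 4 : ℝ) ≤ Real.exp (-(6 / 5)) := by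
    rw [Real.exp_neg, one_div]
    refine inv_anti₀ (Real.exp_pos _) ?_
    have h4 : Real.exp (6 / 5) = Real.exp 1 * Real.exp (1 / 5) := by
      rw [← Real.exp_add]
      norm_num
    have h5 : Real.exp 1 < 2.7182818286 := Real.exp_one_lt_d9
    have h6 : Real.exp (1 / 5) ≤ 5 / 4 := by
      have h7 := Real.add_one_le_exp (-(1 / 5) : ℝ)
      have h8 : Real.exp (1 / 5) * Real.exp (-(1 / 5)) = 1 := by
        rw [← Real.exp_add]
        norm_num
      have h9 := Real.exp_pos (1 / 5 : ℝ)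
      nlinarith
    rw [h4]
    have h10 := Real.exp_pos (1 / 5 : ℝ)
    nlinarith [Real.exp_pos (1 : ℝ)]
  exact (h3.trans h2).trans (pow_le_pow_left₀ (Real.exp_pos _).le h1 M)

theorem mu_Agr_ge {u k : ℕ} (M q : ℕ) (hM : 6 ≤ M) (E : Finset (Fin u × Fin k)) (X0 : Fam u k)
    (hE : E.card ≤ 11 * q * (q * M)) (hT : trues E X0 ≤ 66 * q ^ 2) :
    (1 / (M : ℝ)) ^ (66 * q ^ 2) * (1 / 4) ^ (11 * q ^ 2) ≤ mu (1 / (M : ℝ)) (Agr E X0) := by
  have hM' : (6 : ℝ) ≤ M := by exact_mod_cast hM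
  have hM0 : (0 : ℝ) < M := by linarith
  have ha0 : (0 : ℝ) ≤ 1 / (M : ℝ) := by positivity
  have ha1 : 1 / (M : ℝ) ≤ 1 := by
    rw [div_le_one hM0]
    linarith
  rw [mu_Agr, Finset.prod_ite, Finset.prod_const, Finset.prod_const]
  have h1 : (1 / (M : ℝ)) ^ (66 * q ^ 2) ≤
      (1 / (M : ℝ)) ^ (E.filter fun c => X0 c.1 c.2 = true).card :=
    pow_le_pow_of_le_one ha0 ha1 hT
  have h2 : (1 / 4 : ℝ) ^ (11 * q ^ 2) ≤
      (1 - 1 / (M : ℝ)) ^ (E.filter fun c => ¬ X0 c.1 c.2 = true).card := by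
    calc (1 / 4 : ℝ) ^ (11 * q ^ 2) ≤ ((1 - 1 / (M : ℝ)) ^ M) ^ (11 * q ^ 2) :=
          pow_le_pow_left₀ (by norm_num) (quarter_le M hM) _
      _ = (1 - 1 / (M : ℝ)) ^ (11 * q * (q * M)) := by
          rw [← pow_mul]
          congr 1
          ring
      _ ≤ (1 - 1 / (M : ℝ)) ^ (E.filter fun c => ¬ X0 c.1 c.2 = true).card :=
          pow_le_pow_of_le_one (by linarith) (by linarith)
            ((Finset.card_filter_le _ _).trans hE)
  exact mul_le_mul h1 h2 (by positivity) (by positivity)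

/-- the state of the iteration after `t` steps -/
def St (u k q M : ℕ) (D : Finset (Fin k × Fin k)) (F G : Fam u k → Prop) (t : ℕ) : Prop :=
  ∃ (E E' : Finset (Fin u × Fin k)) (X0 Y0 : Fam u k),
    E.card ≤ t * (q * M) ∧ E'.card ≤ t * (q * M) ∧
    trues E X0 ≤ 6 * q * t ∧ trues E' Y0 ≤ 6 * q * t ∧
    0 < xx (1 / (M : ℝ)) D (fun X => F X ∧ Agr E X0 X) (fun Y => G Y ∧ Agr E' Y0 Y) ∧
    (mu (1 / (M : ℝ)) (fun X => F X ∧ Agr E X0 X) *
        mu (1 / (M : ℝ)) (fun Y => G Y ∧ Agr E' Y0 Y)) *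
      (mu (1 / (M : ℝ)) (Agr E X0) * mu (1 / (M : ℝ)) (Agr E' Y0)) ≤
    (7 / 8) ^ t * 4 ^ q *
      xx (1 / (M : ℝ)) D (fun X => F X ∧ Agr E X0 X) (fun Y => G Y ∧ Agr E' Y0 Y) ^ 2

theorem t_PUR (hS : Pool.Agent.H91.TJ.S_STEP) : Pool.Agent.H91.TJ.S_PUR := by
  intro u k m q M D F G hD hm hq hqM huM hprob
  by_contra hno
  have hM6 : 6 ≤ M := by
    have h1 : 1 ≤ q ^ 2 := Nat.pow_pos (by omega)
    omega
  have hM' : (6 : ℝ) ≤ M := by exact_mod_cast hM6
  have hM0 : (0 : ℝ) < M := by linarith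
  obtain ⟨α, hα⟩ : ∃ α : ℝ, α = 1 / (M : ℝ) := ⟨_, rfl⟩
  have ha0 : 0 ≤ α := by
    rw [hα]
    positivity
  have ha1 : α ≤ 1 := by
    rw [hα, div_le_one hM0]
    linarith
  -- general inequalities
  have hgen : ∀ (E E' : Finset (Fin u × Fin k)) (X0 Y0 : Fam u k),
      xx α D (fun X => F X ∧ Agr E X0 X) (fun Y => G Y ∧ Agr E' Y0 Y) ≤
        mu α (fun X => F X ∧ Agr E X0 X) * mu α (fun Y => G Y ∧ Agr E' Y0 Y) ∧
      mu α (fun X => F X ∧ Agr E X0 X) * mu α (fun Y => G Y ∧ Agr E' Y0 Y) ≤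
        mu α (Agr E X0) * mu α (Agr E' Y0) := fun E E' X0 Y0 =>
    ⟨xx_le ha0 ha1 D _ _, mul_le_mul (mu_mono ha0 ha1 fun X h => h.2)
      (mu_mono ha0 ha1 fun X h => h.2) (mu_nonneg ha0 ha1 _) (mu_nonneg ha0 ha1 _)⟩
  have h4q : (0 : ℝ) < 4 ^ q := by positivity
  -- the start
  have h0 : St u k q M D F G 0 := by
    refine ⟨∅, ∅, fun _ _ => false, fun _ _ => false, by simp, by simp, ?_, ?_, ?_, ?_⟩
    · unfold trues
      simp
    · unfold trues
      simp
    · have e1 : (fun X => F X ∧ Agr (u := u) (k := k) ∅ (fun _ _ => false) X) = F := by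
        funext X
        exact propext ⟨fun h => h.1, fun h => ⟨h, fun c hc => absurd hc (Finset.notMem_empty c)⟩⟩
      have e2 : (fun X => G X ∧ Agr (u := u) (k := k) ∅ (fun _ _ => false) X) = G := by
        funext X
        exact propext ⟨fun h => h.1, fun h => ⟨h, fun c hc => absurd hc (Finset.notMem_empty c)⟩⟩
      rw [e1, e2]
      exact lt_of_lt_of_le (by positivity) hprob
    · have e1 : (fun X => F X ∧ Agr (u := u) (k := k) ∅ (fun _ _ => false) X) = F := by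
        funext X
        exact propext ⟨fun h => h.1, fun h => ⟨h, fun c hc => absurd hc (Finset.notMem_empty c)⟩⟩
      have e2 : (fun X => G X ∧ Agr (u := u) (k := k) ∅ (fun _ _ => false) X) = G := by
        funext X
        exact propext ⟨fun h => h.1, fun h => ⟨h, fun c hc => absurd hc (Finset.notMem_empty c)⟩⟩
      rw [e1, e2, ← hα]
      rw [← hα] at hprob
      have h1 : mu α F * mu α G * (mu α (Agr (u := u) (k := k) ∅ (fun _ _ => false)) *
          mu α (Agr (u := u) (k := k) ∅ (fun _ _ => false))) ≤ 1 := by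
        refine mul_le_one₀ ?_ (mul_nonneg (mu_nonneg ha0 ha1 _) (mu_nonneg ha0 ha1 _)) ?_
        · exact mul_le_one₀ (mu_le_one ha0 ha1 _) (mu_nonneg ha0 ha1 _) (mu_le_one ha0 ha1 _)
        · exact mul_le_one₀ (mu_le_one ha0 ha1 _) (mu_nonneg ha0 ha1 _) (mu_le_one ha0 ha1 _)
      have h2 : (1 : ℝ) ≤ 4 ^ q * xx α D F G ^ 2 := by
        calc (1 : ℝ) = 4 ^ q * ((1 / 2 : ℝ) ^ q) ^ 2 := by
              rw [← pow_mul, mul_comm q 2, pow_mul, ← mul_pow]
              norm_num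
          _ ≤ 4 ^ q * xx α D F G ^ 2 :=
              mul_le_mul_of_nonneg_left (pow_le_pow_left₀ (by positivity) hprob 2) h4q.le
      rw [pow_zero, one_mul]
      exact h1.trans h2
  -- the step
  have hstep : ∀ t : ℕ, t < 11 * q → St u k q M D F G t → St u k q M D F G (t + 1) := by
    rintro t ht ⟨E, E', X0, Y0, hE, hE', hT, hT', hx, hy⟩
    have hT2 : trues E X0 ≤ 66 * q ^ 2 := by
      refine hT.trans ?_
      calc 6 * q * t ≤ 6 * q * (11 * q) := Nat.mul_le_mul_left _ ht.le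
        _ = 66 * q ^ 2 := by ring
    have hT2' : trues E' Y0 ≤ 66 * q ^ 2 := by
      refine hT'.trans ?_
      calc 6 * q * t ≤ 6 * q * (11 * q) := Nat.mul_le_mul_left _ ht.le
        _ = 66 * q ^ 2 := by ring
    have h78 : ((7 : ℝ) / 8) ^ t ≤ 1 := pow_le_one₀ (by norm_num) (by norm_num)
    have hx2 : 0 < xx (1 / (M : ℝ)) D (fun X => F X ∧ Agr E X0 X)
        (fun Y => G Y ∧ Agr E' Y0 Y) ^ 2 := by positivity
    have hy2 : (mu (1 / (M : ℝ)) (fun X => F X ∧ Agr E X0 X) *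
        mu (1 / (M : ℝ)) (fun Y => G Y ∧ Agr E' Y0 Y)) *
        (mu (1 / (M : ℝ)) (Agr E X0) * mu (1 / (M : ℝ)) (Agr E' Y0)) ≤
        4 ^ q * xx (1 / (M : ℝ)) D (fun X => F X ∧ Agr E X0 X)
          (fun Y => G Y ∧ Agr E' Y0 Y) ^ 2 := by
      refine hy.trans (mul_le_mul_of_nonneg_right ?_ hx2.le)
      exact mul_le_of_le_one_left h4q.le h78
    rcases hS u k m q M D F G E E' X0 Y0 hD hm hq hqM huM hx hy2 hT2 hT2' with h | h
    · -- the goal is reached
      exfalso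
      apply hno
      refine ⟨fun X => F X ∧ Agr E X0 X, fun Y => G Y ∧ Agr E' Y0 Y, fun X h => h.1,
        fun Y h => h.1, ?_, h⟩
      obtain ⟨g1, g2⟩ := hgen E E' X0 Y0
      rw [hα] at g1 g2
      obtain ⟨x, hxd⟩ : ∃ x, x = xx (1 / (M : ℝ)) D (fun X => F X ∧ Agr E X0 X)
        (fun Y => G Y ∧ Agr E' Y0 Y) := ⟨_, rfl⟩
      obtain ⟨y, hyd⟩ : ∃ y, y = mu (1 / (M : ℝ)) (fun X => F X ∧ Agr E X0 X) *
        mu (1 / (M : ℝ)) (fun Y => G Y ∧ Agr E' Y0 Y) := ⟨_, rfl⟩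
      obtain ⟨ν, hνd⟩ : ∃ ν, ν = mu (1 / (M : ℝ)) (Agr E X0) * mu (1 / (M : ℝ)) (Agr E' Y0) :=
        ⟨_, rfl⟩
      rw [← hxd, ← hyd] at g1
      rw [← hyd, ← hνd] at g2
      rw [← hxd] at hx
      rw [← hxd, ← hyd, ← hνd] at hy2
      rw [← hyd]
      have hcard : ∀ E : Finset (Fin u × Fin k), E.card ≤ t * (q * M) →
          E.card ≤ 11 * q * (q * M) := fun E hE =>
        hE.trans (Nat.mul_le_mul_right _ ht.le)
      have hν : (1 / (M : ℝ)) ^ (132 * q ^ 2) * (1 / 2) ^ (44 * q ^ 2) ≤ ν := by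
        rw [hνd]
        have h1 := mu_Agr_ge M q hM6 E X0 (hcard E hE) hT2
        have h2 := mu_Agr_ge M q hM6 E' Y0 (hcard E' hE') hT2'
        have h3 := mul_le_mul h1 h2 (by positivity) (by rw [← hα]; exact mu_nonneg ha0 ha1 _)
        refine le_trans (le_of_eq ?_) h3
        have h4 : (1 / 4 : ℝ) = (1 / 2) ^ 2 := by norm_num
        rw [h4, ← pow_mul]
        rw [mul_mul_mul_comm, ← pow_add, ← pow_add]
        congr 2 <;> ring
      have hνx : ν ≤ 4 ^ q * x := by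
        have h1 : ν * x ≤ 4 ^ q * x * x := by
          have hν0 : 0 ≤ ν := le_trans (by positivity) hν
          calc ν * x ≤ ν * y := mul_le_mul_of_nonneg_left g1 hν0
            _ = y * ν := by ring
            _ ≤ 4 ^ q * x ^ 2 := hy2
            _ = _ := by ring
        exact le_of_mul_le_mul_right h1 hx
      have hxy : (1 / 2 : ℝ) ^ (2 * q) * ν ≤ y := by
        have h1 : (1 / 2 : ℝ) ^ (2 * q) * 4 ^ q = 1 := by
          rw [pow_mul, ← mul_pow]
          norm_num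
        calc (1 / 2 : ℝ) ^ (2 * q) * ν ≤ (1 / 2 : ℝ) ^ (2 * q) * (4 ^ q * x) :=
              mul_le_mul_of_nonneg_left hνx (by positivity)
          _ = ((1 / 2 : ℝ) ^ (2 * q) * 4 ^ q) * x := by ring
          _ = x := by rw [h1, one_mul]
          _ ≤ y := g1
      refine le_trans ?_ hxy
      calc (1 / (M : ℝ)) ^ (132 * q ^ 2) * (1 / 2) ^ (46 * q ^ 2)
          ≤ (1 / (M : ℝ)) ^ (132 * q ^ 2) * (1 / 2) ^ (2 * q + 44 * q ^ 2) := by
            refine mul_le_mul_of_nonneg_left ?_ (by positivity)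
            refine pow_le_pow_of_le_one (by norm_num) (by norm_num) ?_
            have : q * 1 ≤ q * q := Nat.mul_le_mul_left _ (by omega)
            have h2 : q * q = q ^ 2 := by ring
            omega
        _ = (1 / 2 : ℝ) ^ (2 * q) *
            ((1 / (M : ℝ)) ^ (132 * q ^ 2) * (1 / 2) ^ (44 * q ^ 2)) := by
            rw [pow_add]
            ring
        _ ≤ (1 / 2 : ℝ) ^ (2 * q) * ν := mul_le_mul_of_nonneg_left hν (by positivity)
    · obtain ⟨E1, E1', X1, Y1, -, -, -, -, hc, hc', htr, htr', hx1, hr⟩ := h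
      refine ⟨E1, E1', X1, Y1, ?_, ?_, ?_, ?_, hx1, ?_⟩
      · calc E1.card ≤ E.card + q * M := hc
          _ ≤ t * (q * M) + q * M := Nat.add_le_add_right hE _
          _ = (t + 1) * (q * M) := by ring
      · calc E1'.card ≤ E'.card + q * M := hc'
          _ ≤ t * (q * M) + q * M := Nat.add_le_add_right hE' _
          _ = (t + 1) * (q * M) := by ring
      · calc trues E1 X1 ≤ trues E X0 + 6 * q := htr
          _ ≤ 6 * q * t + 6 * q := Nat.add_le_add_right hT _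
          _ = 6 * q * (t + 1) := by ring
      · calc trues E1' Y1 ≤ trues E' Y0 + 6 * q := htr'
          _ ≤ 6 * q * t + 6 * q := Nat.add_le_add_right hT' _
          _ = 6 * q * (t + 1) := by ring
      · refine le_of_mul_le_mul_right (hr.trans ?_) hx2
        have hx12 : 0 ≤ xx (1 / (M : ℝ)) D (fun X => F X ∧ Agr E1 X1 X)
          (fun Y => G Y ∧ Agr E1' Y1 Y) ^ 2 := by positivity
        have h1 := mul_le_mul_of_nonneg_right
          (mul_le_mul_of_nonneg_left hy (show (0 : ℝ) ≤ 7 / 8 by norm_num)) hx12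
        refine h1.trans (le_of_eq ?_)
        rw [pow_succ]
        ring
  have hall : ∀ t : ℕ, t ≤ 11 * q → St u k q M D F G t := by
    intro t
    induction t with
    | zero => exact fun _ => h0
    | succ t ih => exact fun ht => hstep t (by omega) (ih (by omega))
  obtain ⟨E, E', X0, Y0, -, -, -, -, hx, hy⟩ := hall (11 * q) le_rfl
  obtain ⟨g1, g2⟩ := hgen E E' X0 Y0
  rw [hα] at g1 g2
  have h1 : ((7 : ℝ) / 8) ^ (11 * q) * 4 ^ q < 1 := by
    rw [pow_mul, ← mul_pow]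
    refine pow_lt_one₀ (by norm_num) (by norm_num) (by omega)
  have hx2 : 0 < xx (1 / (M : ℝ)) D (fun X => F X ∧ Agr E X0 X)
      (fun Y => G Y ∧ Agr E' Y0 Y) ^ 2 := by positivity
  have h2 := mul_lt_mul_of_pos_right h1 hx2
  rw [one_mul] at h2
  have h3 : xx (1 / (M : ℝ)) D (fun X => F X ∧ Agr E X0 X) (fun Y => G Y ∧ Agr E' Y0 Y) ^ 2 ≤
      (mu (1 / (M : ℝ)) (fun X => F X ∧ Agr E X0 X) *
        mu (1 / (M : ℝ)) (fun Y => G Y ∧ Agr E' Y0 Y)) *
      (mu (1 / (M : ℝ)) (Agr E X0) * mu (1 / (M : ℝ)) (Agr E' Y0)) := by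
    rw [sq]
    exact mul_le_mul g1 (g1.trans g2) hx.le (hx.le.trans g1)
  exact absurd (h3.trans hy) (not_le.2 h2)

end H85.TJ
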