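import Pool.Agent.H91.TJ.Stm

set_option autoImplicit false

/-!
# Crew TJ, part RES
-/

namespace H85.TJ

open Pool.Agent.Y516.OJ (Fam Prot Disj tot SA SB toArr zz sum_iff arrA_le arrB_le zz_lt)
open Pool.Agent.H91.TJ (JProt SumJDS)

/-- change of the inputs and of the results -/
def jmap {A B A' B' R R' : Type} (φ : A' → A) (ψ : B' → B) (g : R → R') :
    JProt A B R → JProt A' B' R'
  | .out r => .out (g r)
  | .left f p q => .left (fun x => f (φ x)) (jmap φ ψ g p) (jmap φ ψ g q)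
  | .right f p q => .right (fun y => f (ψ y)) (jmap φ ψ g p) (jmap φ ψ g q)

theorem run_jmap {A B A' B' R R' : Type} (φ : A' → A) (ψ : B' → B) (g : R → R')
    (p : JProt A B R) (x : A') (y : B') : (jmap φ ψ g p).run x y = g (p.run (φ x) (ψ y)) := by
  induction p with
  | out r => rfl
  | left f p q ihp ihq =>
    simp only [jmap, JProt.run, ihp, ihq]
    split <;> rfl
  | right f p q ihp ihq =>
    simp only [jmap, JProt.run, ihp, ihq]
    split <;> rfl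

theorem depth_jmap {A B A' B' R R' : Type} (φ : A' → A) (ψ : B' → B) (g : R → R')
    (p : JProt A B R) : (jmap φ ψ g p).depth = p.depth := by
  induction p with
  | out r => rfl
  | left f p q ihp ihq => simp only [jmap, JProt.depth, ihp, ihq]
  | right f p q ihp ihq => simp only [jmap, JProt.depth, ihp, ihq]

theorem t_RES (hC : Pool.Agent.H91.TJ.S_COR) : Pool.Agent.H91.TJ.S_RES := by
  intro n w b l s hw hb hl D hbits hsol
  obtain ⟨m, hm⟩ : ∃ m, m = 10 ^ 6 * w := ⟨_, rfl⟩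
  obtain ⟨q, hq⟩ : ∃ q, q = m * (l + b) + 1 := ⟨_, rfl⟩
  obtain ⟨M, hM⟩ : ∃ M, M = 400 * m * q ^ 3 := ⟨_, rfl⟩
  obtain ⟨u, hu⟩ : ∃ u, u = M ^ 2 / 768 := ⟨_, rfl⟩
  have hs : 1 ≤ s := by
    by_contra hs
    have hs0 : s = 0 := by omega
    subst hs0
    exact ((D.query 0).run (fun _ => 0) (fun _ => 0)).1.elim0
  have hm1 : 1 ≤ m := by omega
  have hq1 : 1 ≤ q := by omega
  have hM1 : 400 ≤ M := by
    rw [hM]
    have : 1 ≤ m * q ^ 3 := Nat.mul_pos hm1 (Nat.pow_pos hq1)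
    calc 400 = 400 * 1 := rfl
      _ ≤ 400 * (m * q ^ 3) := Nat.mul_le_mul_left _ this
      _ = _ := by ring
  have hu1 : 1 ≤ u := by
    have : 400 ^ 2 ≤ M ^ 2 := Nat.pow_le_pow_left hM1 2
    omega
  obtain ⟨k, hk0⟩ : ∃ k, k = n / M := ⟨_, rfl⟩
  have hkM : k * M ≤ n := by
    rw [hk0]
    exact Nat.div_mul_le_self _ _
  have hk2 : n < (k + 1) * M := by
    have h1 : n < M * (n / M + 1) := Nat.lt_mul_div_succ n (by omega)
    rw [hk0, mul_comm (n / M + 1) M]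
    exact h1
  have hkn : k ≤ n := by
    rw [hk0]
    exact Nat.div_le_self _ _
  have hk : 2 * u * (k * k) ≤ n ^ 2 := by
    have h1 : u * 768 ≤ M ^ 2 := by
      rw [hu]
      exact Nat.div_mul_le_self _ _
    have h2 : u * 768 * (k * k) ≤ M ^ 2 * (k * k) := Nat.mul_le_mul_right _ h1
    have h3 : M ^ 2 * (k * k) = (k * M) ^ 2 := by ring
    have h4 : (k * M) ^ 2 ≤ n ^ 2 := Nat.pow_le_pow_left hkM 2
    have h6 : u * 768 * (k * k) = 384 * (2 * u * (k * k)) := by ring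
    omega
  have hkk : k ^ 2 ≤ 2 * m * s := by
    refine hC w b l m q M k s n u
      (fun X Y c => D.cell (toArr n (n ^ 2) (SA X)) (toArr n (n ^ 2) (SB Y)) c)
      (fun d => jmap (fun X : Fam u k => toArr n (n ^ 2) (SA X))
        (fun Y : Fam u k => toArr n (n ^ 2) (SB Y))
        (fun r => (r.1, fun v => (r.2 v).comap (fun X : Fam u k => toArr n (n ^ 2) (SA X))
          (fun Y : Fam u k => toArr n (n ^ 2) (SB Y))))
        (D.query (zz u k d.1 d.2)))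
      hw hb hm hq hM hu hkM ((Nat.pow_le_pow_left hkn 2).trans hl) ?_ ?_
    · intro d
      refine ⟨?_, ?_⟩
      · rw [depth_jmap]
        exact (hbits _).1
      · intro X Y v
        rw [run_jmap, Pool.Agent.Y516.OJ.Prot.depth_comap]
        exact (hbits _).2 _ _ _
    · intro X Y hX hY d
      rw [run_jmap, Pool.Agent.Y516.OJ.Prot.run_comap]
      rw [← sum_iff hu1 hk X Y hX hY d.1 d.2]
      exact hsol (toArr n (n ^ 2) (SA X)) (toArr n (n ^ 2) (SB Y)) (arrA_le hk X) (arrB_le hk Y)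
        (zz u k d.1 d.2) (zz_lt hu1 hk _ _)
  -- numbers
  have hq2 : q ≤ 2 * (m * (l + b)) := by
    have : 1 ≤ m * (l + b) := Nat.mul_pos hm1 (by omega)
    omega
  have hM2 : M ^ 2 ≤ 1024 * 10 ^ 52 * (w ^ 8 * (b + l) ^ 6) := by
    have h1 : q ^ 6 ≤ (2 * (m * (l + b))) ^ 6 := Nat.pow_le_pow_left hq2 6
    calc M ^ 2 = 160000 * m ^ 2 * q ^ 6 := by
          rw [hM]
          ring
      _ ≤ 160000 * m ^ 2 * (2 * (m * (l + b))) ^ 6 := Nat.mul_le_mul_left _ h1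
      _ = 1024 * 10 ^ 52 * (w ^ 8 * (b + l) ^ 6) := by
          rw [hm]
          ring
  have h5 : w ^ 8 * (b + l) ^ 6 ≤ w ^ 9 * (b + l) ^ 6 * s := by
    calc w ^ 8 * (b + l) ^ 6 = w ^ 8 * (b + l) ^ 6 * 1 := by ring
      _ ≤ w ^ 8 * (b + l) ^ 6 * (w * s) := Nat.mul_le_mul_left _ (Nat.mul_pos hw hs)
      _ = _ := by ring
  rcases Nat.eq_zero_or_pos k with h0 | h0
  · rw [h0, zero_add, one_mul] at hk2
    calc n ^ 2 ≤ M ^ 2 := Nat.pow_le_pow_left hk2.le 2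
      _ ≤ 1024 * 10 ^ 52 * (w ^ 8 * (b + l) ^ 6) := hM2
      _ ≤ 10 ^ 62 * (w ^ 9 * (b + l) ^ 6 * s) := Nat.mul_le_mul (by norm_num) h5
      _ = _ := by ring
  · have h1 : n ≤ 2 * (k * M) := by
      have h2 : (k + 1) * M ≤ (2 * k) * M := Nat.mul_le_mul_right _ (by omega)
      have h3 : (2 * k) * M = 2 * (k * M) := by ring
      omega
    calc n ^ 2 ≤ (2 * (k * M)) ^ 2 := Nat.pow_le_pow_left h1 2
      _ = 4 * M ^ 2 * k ^ 2 := by ring
      _ ≤ 4 * M ^ 2 * (2 * m * s) := Nat.mul_le_mul_left _ hkk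
      _ = 8 * m * s * M ^ 2 := by ring
      _ ≤ 8 * m * s * (1024 * 10 ^ 52 * (w ^ 8 * (b + l) ^ 6)) := Nat.mul_le_mul_left _ hM2
      _ = 8192 * 10 ^ 58 * (w ^ 9 * (b + l) ^ 6 * s) := by
          rw [hm]
          ring
      _ ≤ 10 ^ 62 * (w ^ 9 * (b + l) ^ 6 * s) := Nat.mul_le_mul_right _ (by norm_num)
      _ = _ := by ring

end H85.TJ
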